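import Pool.Agent.Q264.PD.Stm

/-!
# Project PD, job HOM: bijectivity of the maps which are asymptotic to the identity
-/

set_option autoImplicit false

open MeasureTheory Complex Filter Metric Set Topology
open scoped ContDiff

namespace Pool.Agent.Q193.PD

open Pool.Agent.Q264.PD

theorem der_apply {Q : ℂ → ℝ} {c f : ℂ → ℂ} (hu : ∀ z, du f z = (Q z : ℂ) * c z)
    (hv : ∀ z, dv f z = I * c z) (z w : ℂ) :
    fderiv ℝ f z w = c z * ((Q z : ℂ) * (w.re : ℂ) + I * (w.im : ℂ)) := by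
  have h1 : w = w.re • (1 : ℂ) + w.im • I := by
    apply Complex.ext <;> simp
  have h2 : fderiv ℝ f z 1 = (Q z : ℂ) * c z := hu z
  have h3 : fderiv ℝ f z I = I * c z := hv z
  have h4 : fderiv ℝ f z w = w.re • fderiv ℝ f z 1 + w.im • fderiv ℝ f z I := by
    conv_lhs => rw [h1]
    rw [map_add, map_smul, map_smul]
  rw [h4, h2, h3]
  simp only [Complex.real_smul]
  ring

theorem der_inj {Q : ℂ → ℝ} {c f : ℂ → ℂ} (hQ : ∀ z, 0 < Q z) (hu : ∀ z, du f z = (Q z : ℂ) * c z)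
    (hv : ∀ z, dv f z = I * c z) (hc : ∀ z, c z ≠ 0) (z : ℂ) :
    Function.Injective (fderiv ℝ f z) := by
  rw [injective_iff_map_eq_zero]
  intro w hw
  rw [der_apply hu hv] at hw
  have h1 := (mul_eq_zero.1 hw).resolve_left (hc z)
  have hr := congrArg Complex.re h1
  have hi := congrArg Complex.im h1
  simp at hr hi
  apply Complex.ext
  · rcases hr with h | h
    · exact absurd h (hQ z).ne'
    · simpa using h
  · simpa using hi

theorem strict {Q : ℂ → ℝ} {c f : ℂ → ℂ} (hf : ContDiff ℝ 3 f) (hQ : ∀ z, 0 < Q z)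
    (hu : ∀ z, du f z = (Q z : ℂ) * c z) (hv : ∀ z, dv f z = I * c z) (hc : ∀ z, c z ≠ 0) (z : ℂ) :
    ∃ e : ℂ ≃L[ℝ] ℂ, HasStrictFDerivAt f (e : ℂ →L[ℝ] ℂ) z := by
  let l : ℂ ≃ₗ[ℝ] ℂ := LinearEquiv.ofInjectiveEndo (fderiv ℝ f z : ℂ →ₗ[ℝ] ℂ) (der_inj hQ hu hv hc z)
  refine ⟨l.toContinuousLinearEquiv, ?_⟩
  have h1 : ((l.toContinuousLinearEquiv : ℂ ≃L[ℝ] ℂ) : ℂ →L[ℝ] ℂ) = fderiv ℝ f z := by
    ext
    rfl
  rw [h1]
  exact hf.contDiffAt.hasStrictFDerivAt (by norm_num)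

theorem growth {Q : ℂ → ℝ} {c f : ℂ → ℂ} {R : ℝ} (hf : ContDiff ℝ 3 f)
    (hQ1 : ∀ z, R ≤ ‖z‖ → Q z = 1) (hu : ∀ z, du f z = (Q z : ℂ) * c z) (hv : ∀ z, dv f z = I * c z)
    (hlim : Tendsto c (cocompact ℂ) (nhds 1)) {δ : ℝ} (hδ : 0 < δ) :
    ∃ R₁ C : ℝ, 0 < R₁ ∧ (∀ z, R₁ ≤ ‖z‖ → ‖fderiv ℝ f z - ContinuousLinearMap.id ℝ ℂ‖ ≤ δ) ∧
      ∀ z, ‖f z - z‖ ≤ δ * ‖z‖ + C := by
  have hd : Differentiable ℝ f := hf.differentiable (by norm_num)
  have h1 : {z | ‖c z - 1‖ < δ} ∈ cocompact ℂ := by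
    have h2 : ∀ᶠ x in cocompact ℂ, dist (c x) 1 < δ := (Metric.tendsto_nhds.1 hlim) δ hδ
    filter_upwards [h2] with x hx
    rw [← dist_eq_norm]
    exact hx
  obtain ⟨r, hr⟩ := Metric.closedBall_compl_subset_of_mem_cocompact h1 (0 : ℂ)
  obtain ⟨R₁, hR₁⟩ : ∃ R₁ : ℝ, R₁ = max (max R r + 1) 1 := ⟨_, rfl⟩
  have hR0 : 0 < R₁ := by
    rw [hR₁]
    exact lt_of_lt_of_le one_pos (le_max_right _ _)
  have hb : ∀ z, R₁ ≤ ‖z‖ → ‖fderiv ℝ f z - ContinuousLinearMap.id ℝ ℂ‖ ≤ δ := by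
    intro z hz
    have e1 : max R r + 1 ≤ ‖z‖ := (le_max_left _ _).trans (hR₁ ▸ hz)
    have e2 : R ≤ ‖z‖ := by
      have := le_max_left R r
      linarith
    have e3 : r < ‖z‖ := by
      have := le_max_right R r
      linarith
    have e4 : ‖c z - 1‖ < δ := hr (by simpa using e3)
    apply ContinuousLinearMap.opNorm_le_bound _ hδ.le
    intro w
    have e5 : (fderiv ℝ f z - ContinuousLinearMap.id ℝ ℂ) w = (c z - 1) * w := by
      rw [sub_apply, der_apply hu hv, hQ1 z e2]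
      have e6 : w = (w.re : ℂ) + I * (w.im : ℂ) := by
        apply Complex.ext <;> simp
      rw [ContinuousLinearMap.id_apply]
      conv_lhs => rw [show c z * (((1 : ℝ) : ℂ) * (w.re : ℂ) + I * (w.im : ℂ)) = c z * w by
        conv_rhs => rw [e6]
        push_cast
        ring]
      ring
    rw [e5, norm_mul]
    exact mul_le_mul_of_nonneg_right e4.le (norm_nonneg _)
  obtain ⟨C, hC⟩ : ∃ C : ℝ, ∀ p ∈ closedBall (0 : ℂ) R₁, ‖f p - p‖ ≤ C :=
    (isCompact_closedBall (0 : ℂ) R₁).exists_bound_of_continuousOn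
      (hd.continuous.sub continuous_id).continuousOn
  refine ⟨R₁, C, hR0, hb, fun z => ?_⟩
  by_cases hz : ‖z‖ ≤ R₁
  · have := hC z (by simpa using hz)
    have h3 : 0 ≤ δ * ‖z‖ := by positivity
    linarith
  push Not at hz
  have hz0 : 0 < ‖z‖ := hR0.trans hz
  obtain ⟨p, hp⟩ : ∃ p : ℂ, p = (R₁ / ‖z‖) • z := ⟨_, rfl⟩
  have hpn : ‖p‖ = R₁ := by
    rw [hp, norm_smul, Real.norm_eq_abs, abs_of_pos (by positivity)]
    field_simp
  have hseg : ∀ x ∈ segment ℝ p z, R₁ ≤ ‖x‖ := by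
    rintro x ⟨s, t, hs, ht, hst, rfl⟩
    have e1 : s • p + t • z = (s * (R₁ / ‖z‖) + t) • z := by
      rw [hp, smul_smul, add_smul]
    rw [e1, norm_smul, Real.norm_eq_abs, abs_of_nonneg (by positivity)]
    have e2 : (s * (R₁ / ‖z‖) + t) * ‖z‖ = s * R₁ + t * ‖z‖ := by
      field_simp
    rw [e2]
    have e3 : t * R₁ ≤ t * ‖z‖ := mul_le_mul_of_nonneg_left hz.le ht
    have e4 : s * R₁ + t * R₁ = R₁ := by rw [← add_mul, hst, one_mul]
    linarith
  have h3 := (convex_segment (𝕜 := ℝ) p z).norm_image_sub_le_of_norm_fderiv_le' (𝕜 := ℝ) (f := f)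
    (φ := ContinuousLinearMap.id ℝ ℂ) (C := δ) (fun x _ => hd x) (fun x hx => hb x (hseg x hx))
    (left_mem_segment ℝ p z) (right_mem_segment ℝ p z)
  rw [ContinuousLinearMap.id_apply] at h3
  have h4 : ‖z - p‖ ≤ ‖z‖ := by
    have e1 : z - p = (1 - R₁ / ‖z‖) • z := by rw [hp, sub_smul, one_smul]
    have e2 : R₁ / ‖z‖ < 1 := (div_lt_one hz0).2 hz
    have e3 : 0 < R₁ / ‖z‖ := by positivity
    rw [e1, norm_smul, Real.norm_eq_abs, abs_of_pos (by linarith)]
    nlinarith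
  have h5 := hC p (by simpa using hpn.le)
  have h6 : f z - z = (f z - f p - (z - p)) + (f p - p) := by ring
  rw [h6]
  refine (norm_add_le _ _).trans ?_
  have h7 : δ * ‖z - p‖ ≤ δ * ‖z‖ := mul_le_mul_of_nonneg_left h4 hδ.le
  linarith

/-- **JOB HOM** -/
theorem t_HOM : S_HOM := by
  intro Q c f R hf hQ hQ1 hu hv hc hlim
  have hd : Differentiable ℝ f := hf.differentiable (by norm_num)
  -- proper
  have hprop : Tendsto f (cocompact ℂ) (cocompact ℂ) := by
    obtain ⟨R₁, C, -, -, h⟩ := growth hf hQ1 hu hv hlim (show (0 : ℝ) < 1 / 2 by norm_num)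
    rw [← Metric.cobounded_eq_cocompact, ← tendsto_norm_atTop_iff_cobounded]
    have h1 : Tendsto (fun z : ℂ => 1 / 2 * ‖z‖ + -C) (Bornology.cobounded ℂ) atTop :=
      tendsto_atTop_add_const_right _ _
        (Tendsto.const_mul_atTop (by norm_num) tendsto_norm_cobounded_atTop)
    refine tendsto_atTop_mono (fun z => ?_) h1
    have h2 := h z
    have h3 : ‖z‖ ≤ ‖f z‖ + ‖f z - z‖ := by
      have h4 : z = f z - (f z - z) := by ring
      calc ‖z‖ = ‖f z - (f z - z)‖ := by rw [← h4]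
        _ ≤ _ := norm_sub_le _ _
    linarith
  have hpm : IsProperMap f := isProperMap_iff_tendsto_cocompact.2 ⟨hd.continuous, hprop⟩
  -- open
  have hopen : IsOpenMap f := by
    rw [isOpenMap_iff_nhds_le]
    intro z
    obtain ⟨e, he⟩ := strict hf hQ hu hv hc z
    rw [he.map_nhds_eq_of_equiv]
  have hloc : ∀ z, ∃ U : Set ℂ, IsOpen U ∧ z ∈ U ∧ InjOn f U := by
    intro z
    obtain ⟨e, he⟩ := strict hf hQ hu hv hc z
    refine ⟨(he.toOpenPartialHomeomorph f).source, (he.toOpenPartialHomeomorph f).open_source,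
      he.mem_toOpenPartialHomeomorph_source, ?_⟩
    have := (he.toOpenPartialHomeomorph f).injOn
    rwa [he.toOpenPartialHomeomorph_coe] at this
  have hsurj : Function.Surjective f := by
    rw [← range_eq_univ]
    exact IsClopen.eq_univ ⟨hpm.isClosedMap.isClosed_range, hopen.isOpen_range⟩ (range_nonempty f)
  -- the set of the points with one preimage
  let A : Set ℂ := {w | ∀ a b, f a = w → f b = w → a = b}
  have hAo : IsOpen A := by
    rw [isOpen_iff_mem_nhds]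
    intro w hw
    obtain ⟨a, ha⟩ := hsurj w
    obtain ⟨U, hU, haU, hinj⟩ := hloc a
    have h1 : IsClosed (f '' Uᶜ) := hpm.isClosedMap _ hU.isClosed_compl
    have h2 : w ∉ f '' Uᶜ := by
      rintro ⟨b, hb, hbw⟩
      exact hb (hw a b ha hbw ▸ haU)
    filter_upwards [h1.isOpen_compl.mem_nhds h2] with w' hw' b b' hb hb'
    have g1 : b ∈ U := by
      by_contra h
      exact hw' ⟨b, h, hb⟩
    have g2 : b' ∈ U := by
      by_contra h
      exact hw' ⟨b', h, hb'⟩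
    exact hinj g1 g2 (hb.trans hb'.symm)
  have hAc : IsClosed A := by
    rw [← isOpen_compl_iff, isOpen_iff_mem_nhds]
    intro w hw
    have hw' : ∃ a b, f a = w ∧ f b = w ∧ a ≠ b := by
      by_contra h
      push Not at h
      exact hw fun a b ha hb => h a b ha hb
    obtain ⟨a, b, ha, hb, hab⟩ := hw'
    obtain ⟨U, V, hU, hV, haU, hbV, hUV⟩ := t2_separation hab
    have h1 : f '' U ∈ 𝓝 w := by
      rw [← ha]
      exact (hopen U hU).mem_nhds (mem_image_of_mem f haU)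
    have h2 : f '' V ∈ 𝓝 w := by
      rw [← hb]
      exact (hopen V hV).mem_nhds (mem_image_of_mem f hbV)
    filter_upwards [h1, h2]
    rintro _ ⟨x, hx, rfl⟩ ⟨y, hy, hxy⟩ hA
    have := hA x y rfl hxy
    subst this
    exact (disjoint_left.1 hUV) hx hy
  have hAn : A.Nonempty := by
    obtain ⟨R₂, -, hR₂, hb2, -⟩ := growth hf hQ1 hu hv hlim (show (0 : ℝ) < 1 / 2 by norm_num)
    obtain ⟨-, C, -, -, h⟩ := growth hf hQ1 hu hv hlim (show (0 : ℝ) < 1 / 8 by norm_num)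
    have hC0 : 0 ≤ C := by
      have := h 0
      simp only [norm_zero, mul_zero, zero_add] at this
      exact (norm_nonneg _).trans this
    refine ⟨((2 * R₂ + 8 * C + 1 : ℝ) : ℂ), ?_⟩
    intro a b ha hb
    obtain ⟨w, hw⟩ : ∃ w : ℂ, w = ((2 * R₂ + 8 * C + 1 : ℝ) : ℂ) := ⟨_, rfl⟩
    rw [← hw] at ha hb
    have hwn : ‖w‖ = 2 * R₂ + 8 * C + 1 := by
      rw [hw, Complex.norm_real, Real.norm_eq_abs, abs_of_pos (by linarith)]
    have hclose : ∀ x, f x = w → x ∈ closedBall w (‖w‖ / 2) := by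
      intro x hx
      rw [mem_closedBall, dist_eq_norm]
      have h1 := h x
      rw [hx] at h1
      have h2 : ‖x‖ ≤ ‖w‖ + ‖x - w‖ := by
        calc ‖x‖ = ‖w + (x - w)‖ := by ring_nf
          _ ≤ _ := norm_add_le _ _
      rw [norm_sub_rev] at h1
      linarith
    have hbd : ∀ x ∈ closedBall w (‖w‖ / 2), R₂ ≤ ‖x‖ := by
      intro x hx
      rw [mem_closedBall, dist_eq_norm] at hx
      have h2 : ‖w‖ ≤ ‖x‖ + ‖x - w‖ := by
        calc ‖w‖ = ‖x - (x - w)‖ := by ring_nf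
          _ ≤ _ := norm_sub_le _ _
      linarith
    have h3 := (convex_closedBall w (‖w‖ / 2)).norm_image_sub_le_of_norm_fderiv_le' (𝕜 := ℝ) (f := f)
      (φ := ContinuousLinearMap.id ℝ ℂ) (C := 1 / 2) (fun x _ => hd x) (fun x hx => hb2 x (hbd x hx))
      (hclose a ha) (hclose b hb)
    rw [ha, hb, ContinuousLinearMap.id_apply, sub_self, zero_sub, norm_neg] at h3
    have h4 : ‖b - a‖ = 0 := by
      have := norm_nonneg (b - a)
      linarith
    exact (sub_eq_zero.1 (norm_eq_zero.1 h4)).symm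
  have hA : A = univ := IsClopen.eq_univ ⟨hAc, hAo⟩ hAn
  refine ⟨fun a b hab => ?_, hsurj, hprop⟩
  have : f b ∈ A := by rw [hA]; trivial
  exact this a b hab rfl

end Pool.Agent.Q193.PD
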