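import Pool.Agent.Q74.PD.Stm3

/-!
# Project PD of helper74, third round: job Haa (helper193)
-/

set_option autoImplicit false

namespace Pool.Agent.Q193.PD

open Finset Filter Topology MeasureTheory
open Pool.Agent.Q74.PD

namespace HaaAux

instance haar3_haar : haar3.IsAddHaarMeasure := by
  unfold haar3
  infer_instance

theorem haar3_univ : haar3 Set.univ = 1 := by
  have h := Measure.addHaarMeasure_self (K₀ := (⊤ : TopologicalSpace.PositiveCompacts ℤ_[3]))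
  unfold haar3
  simpa using h

instance haar3_prob : IsProbabilityMeasure haar3 := ⟨haar3_univ⟩

theorem mem_Cz {n m : ℕ} (h : n ≤ m) (b : ℤ) (z : ℤ_[3]) :
    z ∈ Cz n b ↔ (3 : ℤ) ^ n ∣ (z.appr m : ℤ) - b := by
  have h1 : ‖z - ((z.appr m : ℕ) : ℤ_[3])‖ ≤ (3 : ℝ) ^ (-(n : ℤ)) := by
    have h2 := (PadicInt.norm_le_pow_iff_mem_span_pow (z - ((z.appr m : ℕ) : ℤ_[3])) m).2
      (PadicInt.appr_spec m z)
    refine h2.trans ?_
    push_cast
    exact zpow_le_zpow_right₀ (by norm_num) (by omega)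
  have h3 : (3 : ℤ) ^ n ∣ (z.appr m : ℤ) - b ↔ ‖(((z.appr m : ℤ) - b : ℤ) : ℤ_[3])‖ ≤ (3 : ℝ) ^ (-(n : ℤ)) := by
    have h4 := PadicInt.norm_int_le_pow_iff_dvd (p := 3) (k := (z.appr m : ℤ) - b) (n := n)
    push_cast at h4 ⊢
    rw [h4]
  rw [h3]
  show ‖z - (b : ℤ_[3])‖ ≤ _ ↔ _
  have e1 : z - (b : ℤ_[3]) = (z - ((z.appr m : ℕ) : ℤ_[3])) + (((z.appr m : ℤ) - b : ℤ) : ℤ_[3]) := by
    push_cast
    ring
  have e2 : (((z.appr m : ℤ) - b : ℤ) : ℤ_[3]) = (z - (b : ℤ_[3])) - (z - ((z.appr m : ℕ) : ℤ_[3])) := by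
    push_cast
    ring
  constructor
  · intro h5
    rw [e2, sub_eq_add_neg]
    refine (PadicInt.nonarchimedean _ _).trans (max_le h5 ?_)
    rw [norm_neg]
    exact h1
  · intro h5
    rw [e1]
    exact (PadicInt.nonarchimedean _ _).trans (max_le h1 h5)

theorem mem_Cz' {n : ℕ} {b : ℕ} (hb : b < 3 ^ n) (z : ℤ_[3]) : z ∈ Cz n (b : ℤ) ↔ z.appr n = b := by
  rw [mem_Cz le_rfl]
  have h1 := PadicInt.appr_lt z n
  constructor
  · intro h
    have h2 : (z.appr n : ℤ) - b = 0 := by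
      refine Int.eq_zero_of_abs_lt_dvd h ?_
      have h3 : (z.appr n : ℤ) < 3 ^ n := by exact_mod_cast h1
      have h4 : (b : ℤ) < 3 ^ n := by exact_mod_cast hb
      rw [abs_lt]
      constructor <;> linarith [Int.natCast_nonneg (z.appr n), Int.natCast_nonneg b]
    omega
  · intro h
    rw [h, sub_self]
    exact dvd_zero _

theorem meas_Cz (n : ℕ) (b : ℤ) : MeasurableSet (Cz n b) := by
  have : IsClosed (Cz n b) := isClosed_le (by fun_prop) continuous_const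
  exact this.measurableSet

theorem haar_tr (n : ℕ) (b : ℤ) : haar3 (Cz n b) = haar3 (Cz n 0) := by
  have h : Cz n b = (fun z : ℤ_[3] => -(b : ℤ_[3]) + z) ⁻¹' Cz n 0 := by
    ext z
    show ‖z - (b : ℤ_[3])‖ ≤ _ ↔ ‖-(b : ℤ_[3]) + z - ((0 : ℤ) : ℤ_[3])‖ ≤ _
    have : -(b : ℤ_[3]) + z - ((0 : ℤ) : ℤ_[3]) = z - (b : ℤ_[3]) := by
      push_cast
      ring
    rw [this]
  rw [h, measure_preimage_add]

theorem part (n : ℕ) : (Set.univ : Set ℤ_[3]) = ⋃ b ∈ range (3 ^ n), Cz n (b : ℤ) := by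
  symm
  rw [Set.eq_univ_iff_forall]
  intro z
  rw [Set.mem_iUnion₂]
  exact ⟨z.appr n, Finset.mem_range.2 (PadicInt.appr_lt z n), (mem_Cz' (PadicInt.appr_lt z n) z).2 rfl⟩

theorem haar_Cz (n : ℕ) (b : ℤ) : haar3.real (Cz n b) = 1 / 3 ^ n := by
  have h1 : haar3 (⋃ b ∈ range (3 ^ n), Cz n ((b : ℕ) : ℤ)) = ∑ b ∈ range (3 ^ n), haar3 (Cz n ((b : ℕ) : ℤ)) := by
    refine measure_biUnion_finset ?_ fun b _ => meas_Cz n _
    intro b hb c hc hne
    rw [Function.onFun, Set.disjoint_left]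
    intro z hz hz'
    rw [mem_Cz' (Finset.mem_range.1 hb)] at hz
    rw [mem_Cz' (Finset.mem_range.1 hc)] at hz'
    exact hne (hz.symm.trans hz')
  rw [← part, haar3_univ] at h1
  simp_rw [haar_tr n] at h1
  rw [Finset.sum_const, Finset.card_range, nsmul_eq_mul] at h1
  have h2 : (1 : ℝ) = (3 : ℝ) ^ n * haar3.real (Cz n 0) := by
    have := congrArg ENNReal.toReal h1
    rw [ENNReal.toReal_mul] at this
    simpa [Measure.real] using this
  have h3 : haar3.real (Cz n b) = haar3.real (Cz n 0) := by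
    unfold Measure.real
    rw [haar_tr]
  rw [h3, eq_div_iff (by positivity), mul_comm]
  exact h2.symm

theorem psi_eq (n : ℕ) (ψ : ℕ → ℝ) : (fun z : ℤ_[3] => ψ (z.appr n)) =
    fun z => ∑ b ∈ range (3 ^ n), (Cz n (b : ℤ)).indicator (fun _ => ψ b) z := by
  funext z
  have h := PadicInt.appr_lt z n
  rw [Finset.sum_eq_single (z.appr n)]
  · rw [Set.indicator_of_mem ((mem_Cz' h z).2 rfl)]
  · intro b hb hne
    rw [Set.indicator_of_notMem]
    intro hz
    exact hne ((mem_Cz' (Finset.mem_range.1 hb) z).1 hz).symm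
  · intro h'
    exact absurd (Finset.mem_range.2 h) h'

theorem psi_int (n : ℕ) (ψ : ℕ → ℝ) : Integrable (fun z : ℤ_[3] => ψ (z.appr n)) haar3 ∧
    ∫ z, ψ (z.appr n) ∂haar3 = (∑ b ∈ range (3 ^ n), ψ b) / 3 ^ n := by
  have hi : ∀ b ∈ range (3 ^ n), Integrable ((Cz n (b : ℤ)).indicator (fun _ => ψ b)) haar3 := fun b _ =>
    (integrable_const _).indicator (meas_Cz n _)
  constructor
  · rw [psi_eq]
    exact integrable_finsetSum _ hi
  · have h1 : ∫ z, ψ (z.appr n) ∂haar3 = ∫ z, ∑ b ∈ range (3 ^ n), (Cz n (b : ℤ)).indicator (fun _ => ψ b) z ∂haar3 := by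
      rw [← psi_eq]
    rw [h1, integral_finsetSum _ hi, Finset.sum_div]
    refine Finset.sum_congr rfl fun b _ => ?_
    rw [integral_indicator_const _ (meas_Cz n _), haar_Cz, smul_eq_mul]
    ring

end HaaAux

open HaaAux

/-- **JOB Haa** -/
theorem haa : S_Haa := by
  refine ⟨haar3_prob, fun n b => ⟨meas_Cz n b, haar_Cz n b⟩, psi_int, ?_⟩
  intro n m b ψ hnm
  classical
  have h1 : ∀ z : ℤ_[3], (Cz n b).indicator (fun z => ψ (z.appr m)) z =
      (fun r : ℕ => if (3 : ℤ) ^ n ∣ (r : ℤ) - b then ψ r else 0) (z.appr m) := by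
    intro z
    by_cases hz : z ∈ Cz n b
    · rw [Set.indicator_of_mem hz]
      simp only
      rw [if_pos ((mem_Cz hnm b z).1 hz)]
    · rw [Set.indicator_of_notMem hz]
      simp only
      rw [if_neg fun h => hz ((mem_Cz hnm b z).2 h)]
  rw [← integral_indicator (meas_Cz n b)]
  simp_rw [h1]
  rw [(psi_int m (fun r : ℕ => if (3 : ℤ) ^ n ∣ (r : ℤ) - b then ψ r else 0)).2, Finset.sum_filter]

end Pool.Agent.Q193.PD
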