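import Pool.Agent.Q264.PD.Stm

/-!
# Project PD, job MAP
-/

set_option autoImplicit false

open MeasureTheory Complex Filter Metric Set Topology
open scoped ContDiff

namespace Pool.Agent.Q193.PD

open Pool.Agent.Q264.PD

theorem mu_bound {Q : ℂ → ℝ} {R : ℝ} (hQ : Continuous Q) (hpos : ∀ z, 0 < Q z)
    (h1 : ∀ z, R ≤ ‖z‖ → Q z = 1) :
    ∃ k : ℝ, 0 < k ∧ k < 1 ∧ ∀ z, |(Q z - 1) / (Q z + 1)| ≤ k := by
  have hlt : ∀ z, |(Q z - 1) / (Q z + 1)| < 1 := by
    intro z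
    have := hpos z
    rw [abs_div, div_lt_one (by positivity), abs_of_pos (show 0 < Q z + 1 by positivity), abs_lt]
    constructor <;> linarith
  have hcont : Continuous fun z => |(Q z - 1) / (Q z + 1)| := by
    apply Continuous.abs
    apply Continuous.div (hQ.sub continuous_const) (hQ.add continuous_const)
    intro z
    exact (add_pos (hpos z) one_pos).ne'
  obtain ⟨z₀, -, hz₀⟩ := (isCompact_closedBall (0 : ℂ) |R|).exists_isMaxOn
    ⟨0, by simp⟩ hcont.continuousOn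
  refine ⟨max (1 / 2) (|(Q z₀ - 1) / (Q z₀ + 1)|), lt_max_of_lt_left (by norm_num),
    max_lt (by norm_num) (hlt z₀), fun z => ?_⟩
  by_cases hz : ‖z‖ ≤ |R|
  · exact (hz₀ (show z ∈ closedBall (0 : ℂ) |R| by simpa using hz)).trans (le_max_right _ _)
  · push Not at hz
    have : Q z = 1 := h1 z ((le_abs_self R).trans hz.le)
    rw [this]
    norm_num

theorem hasFD_exp {l : ℂ → ℂ} (hl : Differentiable ℝ l) (z : ℂ) :
    HasFDerivAt (fun z => Complex.exp (l z)) (Complex.exp (l z) • fderiv ℝ l z) z :=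
  (hl z).hasFDerivAt.cexp

/-- **JOB MAP** -/
theorem t_MAP (hLAM : S_LAM) (hPOT : S_POT) (hHOM : S_HOM) : S_MAP := by
  intro Q R hQ hpos h1
  have hQd : Differentiable ℝ Q := hQ.differentiable (by simp)
  obtain ⟨k, hk0, hk1, hk⟩ := mu_bound hQ.continuous hpos h1
  have hQ1 : ∀ z, Q z + 1 ≠ 0 := fun z => by
    have := hpos z
    positivity
  have hdv : ContDiff ℝ ∞ (dv Q) := by
    have := (hQ.fderiv_right (m := ∞) (by simp)).clm_apply (contDiff_const (c := (I : ℂ)))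
    exact this
  obtain ⟨μ, hμ⟩ : ∃ μ : ℂ → ℂ, μ = fun z => (((Q z - 1) / (Q z + 1) : ℝ) : ℂ) := ⟨_, rfl⟩
  obtain ⟨g, hg⟩ : ∃ g : ℂ → ℂ, g = fun z => -I * ((dv Q z / (Q z + 1) : ℝ) : ℂ) := ⟨_, rfl⟩
  have hμs : ContDiff ℝ ∞ μ := by
    rw [hμ]
    exact Complex.ofRealCLM.contDiff.comp ((hQ.sub contDiff_const).div (hQ.add contDiff_const) hQ1)
  have hgs : ContDiff ℝ ∞ g := by
    rw [hg]
    exact contDiff_const.mul (Complex.ofRealCLM.contDiff.comp (hdv.div (hQ.add contDiff_const) hQ1))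
  have hμc : HasCompactSupport μ := by
    apply HasCompactSupport.intro (isCompact_closedBall (0 : ℂ) |R|)
    intro z hz
    have hz' : |R| < ‖z‖ := by simpa using hz
    rw [hμ]
    simp only
    rw [h1 z ((le_abs_self R).trans hz'.le)]
    norm_num
  have hgc : HasCompactSupport g := by
    apply HasCompactSupport.intro (isCompact_closedBall (0 : ℂ) |R|)
    intro z hz
    have hz' : |R| < ‖z‖ := by simpa using hz
    have he : Q =ᶠ[𝓝 z] fun _ => (1 : ℝ) := by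
      have : {w : ℂ | |R| < ‖w‖} ∈ 𝓝 z := (isOpen_lt continuous_const continuous_norm).mem_nhds hz'
      filter_upwards [this] with w hw
      exact h1 w ((le_abs_self R).trans (le_of_lt hw))
    have h2 : dv Q z = 0 := by
      rw [dv, he.fderiv_eq]
      simp
    rw [hg]
    simp only
    rw [h2]
    simp
  obtain ⟨l, hl, hl0, hle⟩ := hLAM μ g k hk0 hk1 hμs hμc (fun z => by
    rw [hμ]
    simp only
    rw [Complex.norm_real, Real.norm_eq_abs]
    exact hk z) hgs hgc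
  have hld : Differentiable ℝ l := hl.differentiable (by norm_num)
  have heq : ∀ z, du l z = -I * ((Q z : ℂ) * dv l z + ((dv Q z : ℝ) : ℂ)) := by
    intro z
    have h2 := hle z
    rw [hμ, hg] at h2
    simp only at h2
    have h3 : ((Q z : ℂ) + 1) ≠ 0 := by exact_mod_cast hQ1 z
    push_cast at h2
    field_simp at h2
    linear_combination (1 / 2) * h2
  obtain ⟨c, hc⟩ : ∃ c : ℂ → ℂ, c = fun z => Complex.exp (l z) := ⟨_, rfl⟩
  have hcs : ContDiff ℝ 3 c := by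
    rw [hc]
    exact hl.cexp
  have hc0 : ∀ z, c z ≠ 0 := fun z => by rw [hc]; exact Complex.exp_ne_zero _
  have hct : Tendsto c (cocompact ℂ) (𝓝 1) := by
    rw [hc, ← Complex.exp_zero]
    exact (Complex.continuous_exp.tendsto 0).comp hl0
  have hcd : ∀ z, HasFDerivAt c (c z • fderiv ℝ l z) z := by
    intro z
    rw [hc]
    exact hasFD_exp hld z
  have hQc : ∀ z, HasFDerivAt (fun z => (Q z : ℂ)) (Complex.ofRealCLM.comp (fderiv ℝ Q z)) z := fun z =>
    Complex.ofRealCLM.hasFDerivAt.comp z (hQd z).hasFDerivAt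
  obtain ⟨P, hP⟩ : ∃ P : ℂ → ℂ, P = fun z => (Q z : ℂ) * c z := ⟨_, rfl⟩
  obtain ⟨S, hS⟩ : ∃ S : ℂ → ℂ, S = fun z => I * c z := ⟨_, rfl⟩
  have hPs : ContDiff ℝ 2 P := by
    rw [hP]
    exact (Complex.ofRealCLM.contDiff.comp (hQ.of_le (show ((2 : ℕ∞) : WithTop ℕ∞) ≤ ((⊤ : ℕ∞) : WithTop ℕ∞) from WithTop.coe_le_coe.2 le_top))).mul
      (hcs.of_le (by norm_num))
  have hSs : ContDiff ℝ 2 S := by
    rw [hS]
    exact contDiff_const.mul (hcs.of_le (by norm_num))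
  have hPS : ∀ z, dv P z = du S z := by
    intro z
    have e1 : dv P z = (Q z : ℂ) * (c z * dv l z) + c z * ((dv Q z : ℝ) : ℂ) := by
      have e0 : HasFDerivAt (fun z => (Q z : ℂ) * c z) ((Q z : ℂ) • (c z • fderiv ℝ l z) +
        c z • (Complex.ofRealCLM.comp (fderiv ℝ Q z))) z := (hQc z).mul (hcd z)
      rw [dv, hP, e0.fderiv]
      simp [dv, smul_eq_mul]
    have e2 : du S z = I * (c z * du l z) := by
      rw [du, hS, ((hcd z).const_mul I).fderiv]
      simp [du, smul_eq_mul]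
    rw [e1, e2, heq z]
    linear_combination (((Q z : ℂ) * dv l z + ((dv Q z : ℝ) : ℂ)) * c z) * Complex.I_mul_I
  obtain ⟨f, hf, hfd⟩ := hPOT P S hPs hSs hPS
  have hfu : ∀ z, du f z = (Q z : ℂ) * c z := fun z => by rw [(hfd z).1, hP]
  have hfv : ∀ z, dv f z = I * c z := fun z => by rw [(hfd z).2, hS]
  obtain ⟨hinj, hsurj, hprop⟩ := hHOM Q c f R hf hpos h1 hfu hfv hc0 hct
  have hfdiff : Differentiable ℝ f := hf.differentiable (by norm_num)
  have hF : ∀ z, HasFDerivAt (fun z => (c 0)⁻¹ * (f z - f 0)) ((c 0)⁻¹ • fderiv ℝ f z) z := fun z =>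
    ((hfdiff z).hasFDerivAt.sub_const (f 0)).const_mul _
  have hFu : ∀ z, du (fun z => (c 0)⁻¹ * (f z - f 0)) z = (c 0)⁻¹ * du f z := fun z => by
    rw [du, (hF z).fderiv]
    rfl
  have hFv : ∀ z, dv (fun z => (c 0)⁻¹ * (f z - f 0)) z = (c 0)⁻¹ * dv f z := fun z => by
    rw [dv, (hF z).fderiv]
    rfl
  have hi : (c 0)⁻¹ ≠ 0 := inv_ne_zero (hc0 0)
  refine ⟨fun z => (c 0)⁻¹ * (f z - f 0), ⟨?_, ?_, ?_, ?_, ?_, ?_⟩, ?_, ?_⟩
  · exact contDiff_const.mul (hf.sub contDiff_const)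
  · intro z
    rw [hFu, hFv, hfu, hfv]
    linear_combination ((c 0)⁻¹ * (Q z : ℂ) * c z) * Complex.I_mul_I
  · intro z
    rw [hFv, hfv]
    exact mul_ne_zero hi (mul_ne_zero I_ne_zero (hc0 z))
  · intro x y hxy
    have h2 := mul_left_cancel₀ hi hxy
    exact hinj (sub_left_injective h2)
  · intro w
    obtain ⟨z, hz⟩ := hsurj (c 0 * w + f 0)
    refine ⟨z, ?_⟩
    simp only
    rw [hz, add_sub_cancel_right, ← mul_assoc, inv_mul_cancel₀ (hc0 0), one_mul]
  · have h2 : Tendsto (fun w : ℂ => (c 0)⁻¹ * (w - f 0)) (cocompact ℂ) (cocompact ℂ) := by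
      obtain ⟨F, hF'⟩ : ∃ F : ℂ ≃ₜ ℂ, F = (Homeomorph.subRight (f 0)).trans (Homeomorph.mulLeft₀ (c 0)⁻¹ hi) :=
        ⟨_, rfl⟩
      have e0 : (fun w : ℂ => (c 0)⁻¹ * (w - f 0)) = ⇑F := by
        funext w
        rw [hF']
        simp [sub_eq_add_neg]
      rw [e0]
      exact F.isClosedEmbedding.tendsto_cocompact
    exact h2.comp hprop
  · simp
  · rw [hFv, hfv]
    have := hc0 0
    field_simp

end Pool.Agent.Q193.PD
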