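import Pool.Agent.Q264.PD.Stm

/-!
# Project PD, job SEQ
-/

set_option autoImplicit false

open MeasureTheory Complex Filter Metric Set Topology
open scoped ContDiff

namespace Pool.Agent.Q193.PD

open Pool.Agent.Q264.PD

/-- the derivative vanishes in the closed ball and outside -/
theorem fd_zero {φ : ℂ → ℝ} (hφ : ContDiff ℝ ∞ φ) {r ρ : ℝ} (hr : 0 < r) (hρ : 0 < ρ)
    (h1 : ∀ z, ‖z‖ ≤ r → φ z = 1) (h0 : ∀ z, ρ ≤ ‖z‖ → φ z = 0) (z : ℂ)
    (hz : ‖z‖ ≤ r ∨ ρ ≤ ‖z‖) : fderiv ℝ φ z = 0 := by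
  have hc : IsClosed {z | fderiv ℝ φ z = 0} :=
    isClosed_eq (hφ.continuous_fderiv (by simp)) continuous_const
  have hb : ball (0 : ℂ) r ⊆ {z | fderiv ℝ φ z = 0} := by
    intro w hw
    have he : φ =ᶠ[𝓝 w] fun _ => (1 : ℝ) := by
      filter_upwards [isOpen_ball.mem_nhds hw] with x hx
      exact h1 x (by simpa using (mem_ball_zero_iff.1 hx).le)
    show fderiv ℝ φ w = 0
    rw [he.fderiv_eq]
    simp
  have hb' : (closedBall (0 : ℂ) ρ)ᶜ ⊆ {z | fderiv ℝ φ z = 0} := by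
    intro w hw
    have he : φ =ᶠ[𝓝 w] fun _ => (0 : ℝ) := by
      filter_upwards [isClosed_closedBall.isOpen_compl.mem_nhds hw] with x hx
      have : ρ < ‖x‖ := by simpa using hx
      exact h0 x this.le
    show fderiv ℝ φ w = 0
    rw [he.fderiv_eq]
    simp
  rcases hz with hz | hz
  · have h2 := hc.closure_subset_iff.2 hb
    rw [closure_ball _ hr.ne'] at h2
    exact h2 (by simpa using hz)
  · have h2 := hc.closure_subset_iff.2 hb'
    rw [closure_compl, interior_closedBall _ hρ.ne'] at h2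
    exact h2 (by simpa using hz)

/-- the states of the construction -/
abbrev TT : Type := {r : ℝ // 1 / 2 ≤ r ∧ r < 1}

theorem step (hCUT : S_CUT) (hQQ : S_QQ) (ε : ℕ → ℝ) (hε : ∀ n, 0 < ε n) (n : ℕ) (r : TT) :
    ∃ (r' : TT) (φ q : ℂ → ℝ), r.1 < r'.1 ∧ 1 - 1 / ((n : ℝ) + 3) < r'.1 ∧ ContDiff ℝ ∞ φ ∧
      (∀ z, ‖z‖ ≤ r.1 → φ z = 1) ∧ (∀ z, r'.1 ≤ ‖z‖ → φ z = 0) ∧ ContDiff ℝ ∞ q ∧ (∀ z, 0 < q z) ∧
      (∀ z, ‖z‖ ≤ r.1 → q z = 1) ∧ (∀ z, r'.1 ≤ ‖z‖ → q z = 1) ∧
      (∀ z, ‖z‖ ≤ r.1 ∨ r'.1 ≤ ‖z‖ → fderiv ℝ φ z = 0) ∧ Energy q φ ≤ ε n := by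
  obtain ⟨s, hs⟩ : ∃ s : ℝ, s = max r.1 (1 - 1 / ((n : ℝ) + 3)) := ⟨_, rfl⟩
  have hn : (0 : ℝ) < (n : ℝ) + 3 := by positivity
  have hs1 : s < 1 := by
    rw [hs]
    apply max_lt r.2.2
    have : 0 < 1 / ((n : ℝ) + 3) := by positivity
    linarith
  have hrs : r.1 ≤ s := by rw [hs]; exact le_max_left _ _
  have hr0 : 0 < r.1 := by
    have := r.2.1
    linarith
  have hs0 : 0 < s := hr0.trans_le hrs
  obtain ⟨φ, ρ, h1, h2, h3, h4, h5, h6⟩ := hCUT s hs0 hs1 (ε n / 4) (by have := hε n; positivity)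
  have hρ0 : 0 < ρ := hs0.trans h1
  have hcs : HasCompactSupport φ := by
    apply HasCompactSupport.intro (isCompact_closedBall (0 : ℂ) ρ)
    intro z hz
    have : ρ < ‖z‖ := by simpa using hz
    exact h5 z this.le
  obtain ⟨q, g1, g2, g3, g4⟩ := hQQ φ h3 hcs (ε n / 2) (by have := hε n; positivity)
  have hfd : ∀ z, ‖z‖ ≤ r.1 ∨ ρ ≤ ‖z‖ → fderiv ℝ φ z = 0 := by
    intro z hz
    apply fd_zero h3 hs0 hρ0 h4 h5 z
    rcases hz with hz | hz
    · exact Or.inl (hz.trans hrs)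
    · exact Or.inr hz
  have hρ2 : 1 / 2 ≤ ρ := by
    have := r.2.1
    linarith
  refine ⟨⟨ρ, hρ2, h2⟩, φ, q, lt_of_le_of_lt hrs h1, ?_, h3, fun z hz => h4 z (hz.trans hrs), h5, g1, g2,
    fun z hz => g3 z (hfd z (Or.inl hz)), fun z hz => g3 z (hfd z (Or.inr hz)), hfd, ?_⟩
  · have : 1 - 1 / ((n : ℝ) + 3) ≤ s := by rw [hs]; exact le_max_right _ _
    exact lt_of_le_of_lt this h1
  · linarith

/-- **JOB SEQ** -/
theorem t_SEQ (hCUT : S_CUT) (hQQ : S_QQ) : S_SEQ := by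
  intro ε hε
  choose nx Φ q h1 h2 h3 h4 h5 h6 h7 h8 h9 h10 h11 using step hCUT hQQ ε hε
  let st : ℕ → TT := fun n => Nat.rec ⟨1 / 2, le_refl _, by norm_num⟩ (fun n r => nx n r) n
  have hst : ∀ n, st (n + 1) = nx n (st n) := fun n => rfl
  have hlt : ∀ n, (st n).1 < (st (n + 1)).1 := fun n => by
    rw [hst]
    exact h1 n (st n)
  have hmono : StrictMono fun n => (st n).1 := strictMono_nat_of_lt_succ hlt
  have hle : ∀ {n m : ℕ}, n ≤ m → (st n).1 ≤ (st m).1 := fun h => hmono.monotone h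
  refine ⟨fun n => (st n).1, fun n => Φ n (st n), fun m z => ∏ n ∈ Finset.range m, q n (st n) z,
    hmono, fun n => (st n).2, ?_, ?_, ?_, ?_, ?_, ?_⟩
  · rw [← tendsto_add_atTop_iff_nat 1]
    have hlow : Tendsto (fun n : ℕ => 1 - 1 / ((n : ℝ) + 3)) atTop (𝓝 1) := by
      have e1 : Tendsto (fun n : ℕ => 1 / ((n : ℝ) + 3)) atTop (𝓝 0) := by
        have := (tendsto_const_div_atTop_nhds_zero_nat (1 : ℝ)).comp (tendsto_add_atTop_nat 3)
        refine this.congr fun n => ?_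
        simp
      simpa using tendsto_const_nhds.sub e1
    refine tendsto_of_tendsto_of_tendsto_of_le_of_le hlow tendsto_const_nhds (fun n => ?_) (fun n => ?_)
    · have := h2 n (st n)
      simp only [hst]
      exact this.le
    · exact (st (n + 1)).2.2.le
  · intro n
    refine ⟨h3 n (st n), h4 n (st n), fun z hz => h5 n (st n) z ?_⟩
    rw [← hst]
    exact hz
  · intro m
    refine ⟨contDiff_prod fun n _ => h6 n (st n), fun z => Finset.prod_pos fun n _ => h7 n (st n) z,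
      fun z hz => Finset.prod_eq_one fun n hn => h9 n (st n) z ?_⟩
    rw [← hst]
    exact (hle (Nat.succ_le_of_lt (Finset.mem_range.1 hn))).trans hz
  · intro n m hnm z hz
    symm
    apply Finset.prod_subset (Finset.range_mono hnm)
    intro j hj hj'
    rw [Finset.mem_range] at hj hj'
    exact h8 j (st j) z (hz.trans (hle (by omega)))
  · intro z
    simp
  · intro n m hnm
    have e1 : Energy (fun z => ∏ n ∈ Finset.range m, q n (st n) z) (Φ n (st n)) =
        Energy (q n (st n)) (Φ n (st n)) := by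
      unfold Energy
      congr 1
      funext z
      by_cases hz : fderiv ℝ (Φ n (st n)) z = 0
      · have g1 : du (Φ n (st n)) z = 0 := by rw [du, hz]; rfl
        have g2 : dv (Φ n (st n)) z = 0 := by rw [dv, hz]; rfl
        rw [g1, g2]
        simp
      · have g1 : (st n).1 < ‖z‖ := by
          by_contra hh
          push Not at hh
          exact hz (h10 n (st n) z (Or.inl hh))
        have g2 : ‖z‖ < (st (n + 1)).1 := by
          by_contra hh
          push Not at hh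
          rw [hst] at hh
          exact hz (h10 n (st n) z (Or.inr hh))
        have g3 : ∏ n ∈ Finset.range m, q n (st n) z = q n (st n) z := by
          apply Finset.prod_eq_single_of_mem n (Finset.mem_range.2 hnm)
          intro j _ hjn
          rcases lt_or_gt_of_ne hjn with hj | hj
          · apply h9 j (st j) z
            rw [← hst]
            exact (hle (Nat.succ_le_of_lt hj)).trans g1.le
          · exact h8 j (st j) z (g2.le.trans (hle hj))
        simp only [g3]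
    rw [e1]
    exact h11 n (st n)

end Pool.Agent.Q193.PD
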